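import Pool.Agent.H358R4.RoughFinal

set_option autoImplicit false

/-- For every `ε > 0` there are `η > 0` and `r` such that for every sufficiently large modulus `d`,
every residue class `a` prime to `d` and each parity `j` there is a positive integer
`N < d ^ (2 + ε)`, `N ≡ a` modulo `d`, whose number of prime factors, counted with multiplicity, has
parity `j` and is at most `r`, and all of whose prime factors exceed `d ^ η`. -/
theorem Pool.Agent.Results.MP_42948a_nt.BoundedParityEveryModulus.result :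
    ∀ ε : ℝ, 0 < ε → ∃ η : ℝ, 0 < η ∧ ∃ r : ℕ, ∃ d0 : ℕ, ∀ d : ℕ, d0 ≤ d →
      ∀ a : ℕ, Nat.Coprime a d → ∀ j : ℕ, j < 2 →
      ∃ N : ℕ, 0 < N ∧ (N : ℝ) < (d : ℝ) ^ (2 + ε) ∧ N ≡ a [MOD d] ∧
        ArithmeticFunction.cardFactors N % 2 = j ∧ ArithmeticFunction.cardFactors N ≤ r ∧
        ∀ p : ℕ, p.Prime → p ∣ N → (d : ℝ) ^ η < p :=
  fun ε hε => Pool.Agent.H358R4.parity_rough ε hε
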