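import Pool.Agent.H438R2.DL.Linnik

open Finset

namespace Pool.Agent.Results.MP_42948a_nt.ShortClassIntervals

/-- **Chowla's bound `p(d, a) < d ^ (1 + ε)` for almost all moduli and a positive proportion of the classes
in very short intervals.**
For all `ε, η ∈ (0, 1)` there are `c, κ > 0` such that for all large `D` and all `β ∈ [0, 1]`, for all but
at most `D ^ (1 - κ)` of the integers `d` with `D < d < 2 D`, at least `c (φ(d)/d) d ^ η` of the integers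
`a` in the interval `(β d, β d + d ^ η]` are coprime to `d` and such that some prime `p ≡ a (mod d)` is
less than `d ^ (1 + ε)`. -/
theorem result (ε η : ℝ) (hε : 0 < ε) (hε1 : ε < 1) (hη : 0 < η) (hη1 : η < 1) :
    ∃ c κ : ℝ, 0 < c ∧ 0 < κ ∧ ∃ D₀ : ℕ, ∀ D : ℕ, D₀ ≤ D → ∀ β : ℝ, 0 ≤ β → β ≤ 1 →
      ∃ E : Finset ℕ, (E.card : ℝ) ≤ (D : ℝ) ^ (1 - κ) ∧ ∀ d : ℕ, D < d → d < 2 * D → d ∉ E →
        c * ((Nat.totient d : ℝ) / d) * (d : ℝ) ^ η ≤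
          ({a : ℕ | β * d < a ∧ (a : ℝ) ≤ β * d + (d : ℝ) ^ η ∧ a.Coprime d ∧
            ∃ p : ℕ, p.Prime ∧ p ≡ a [MOD d] ∧ (p : ℝ) < (d : ℝ) ^ (1 + ε)}.ncard : ℝ) := by
  classical
  obtain ⟨c, κ, hc, hκ, D₀, h⟩ := Pool.Agent.H438R2.DL.linnik_avg ε η hε hε1 hη hη1
  refine ⟨c, κ, hc, hκ, D₀, fun D hD β hβ0 hβ1 => ?_⟩
  obtain ⟨E, hE, h2⟩ := h D hD β hβ0 hβ1
  refine ⟨E, hE, fun d hd1 hd2 hdE => (h2 d hd1 hd2 hdE).trans (le_of_eq ?_)⟩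
  have hset : {a : ℕ | β * d < a ∧ (a : ℝ) ≤ β * d + (d : ℝ) ^ η ∧ a.Coprime d ∧
            ∃ p : ℕ, p.Prime ∧ p ≡ a [MOD d] ∧ (p : ℝ) < (d : ℝ) ^ (1 + ε)} =
      (((Ioc ⌊β * d⌋₊ ⌊β * d + (d : ℝ) ^ η⌋₊).filter (fun a => a.Coprime d ∧
            ∃ p : ℕ, p.Prime ∧ p ≡ a [MOD d] ∧ (p : ℝ) < (d : ℝ) ^ (1 + ε)) : Finset ℕ) : Set ℕ) := by
    ext a
    rw [Set.mem_setOf_eq, coe_filter, Set.mem_setOf_eq, mem_Ioc, Nat.floor_lt (by positivity),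
      Nat.le_floor_iff (by positivity)]
    tauto
  rw [hset, Set.ncard_coe_finset]

end Pool.Agent.Results.MP_42948a_nt.ShortClassIntervals
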