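import Pool.Agent.H300R2.WEH.Fin
import Pool.Agent.H300R2.WEH.LPOf

/-!
Chowla's bound `p(d, a) < d^(1+ε)` for almost all pairs `(d, a)` with `a` in an arbitrarily short
interval.
-/

set_option autoImplicit false

namespace Pool.Agent.Results.MP_42948a_nt.ShortIntervalPairs

open Finset
open Pool.Agent.H300R2.WEH

open Classical in
/-- the least prime of the form `a + k d` with `k ≥ 0`, `0` if there is none -/
noncomputable def leastPrime (d a : ℕ) : ℕ :=
  if h : ∃ p, p.Prime ∧ ∃ k, p = a + k * d then Nat.find h else 0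

open Classical in
/-- the `a` with `a0 < a ≤ a0 + A`, coprime to `d`, with `p(d, a) ≥ d^(1+ε)` -/
noncomputable def bad (ε : ℝ) (d a0 A : ℕ) : Finset ℕ :=
  (Ioc a0 (a0 + A)).filter (fun a => a.Coprime d ∧ (d : ℝ) ^ (1 + ε) ≤ leastPrime d a)

lemma bad_sub (ε : ℝ) (d a0 A : ℕ) : bad ε d a0 A ⊆ badSet ((d : ℝ) ^ (1 + ε)) d a0 A := by
  classical
  intro a ha
  unfold bad at ha
  rw [mem_filter] at ha
  rw [mem_badSet]
  refine ⟨ha.1, ha.2.1, fun n hn => ?_⟩
  have hex : ∃ p, p.Prime ∧ ∃ k, p = a + k * d := ⟨d * n + a, hn, n, by ring⟩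
  have h2 := ha.2.2
  unfold leastPrime at h2
  rw [dif_pos hex] at h2
  refine h2.trans ?_
  exact_mod_cast Nat.find_min' hex ⟨hn, n, by ring⟩

/-- **Chowla's bound for almost all pairs.** For all `ε > 0` and `U` there is `C` such that for all
`D ≥ 2` and all intervals `(a0, a0 + A]` inside `[1, D]` of length `A ≥ D^ε`, at most
`C A D / (log D)^U` of the coprime pairs `(d, a)` with `D < d ≤ 2D`, `a0 < a ≤ a0 + A`
satisfy `p(d, a) ≥ d^(1+ε)`. -/
theorem result (ε : ℝ) (hε : 0 < ε) (U : ℕ) : ∃ C : ℝ, ∀ D : ℕ, 2 ≤ D → ∀ A a0 : ℕ,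
    (D : ℝ) ^ ε ≤ A → a0 + A ≤ D →
    ((∑ d ∈ Ioc D (2 * D), (bad ε d a0 A).card : ℕ) : ℝ) ≤ C * (A * D / Real.log D ^ U) := by
  obtain ⟨C, hC⟩ := pairs_of finalS ε hε U
  refine ⟨C, fun D hD A a0 hA ha => le_trans ?_ (hC D hD A a0 hA ha)⟩
  exact_mod_cast sum_le_sum fun d _ => card_le_card (bad_sub ε d a0 A)

end Pool.Agent.Results.MP_42948a_nt.ShortIntervalPairs
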