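import Pool.Agent.H442R2.LP.Core
import Pool.Agent.H442R2.FX.Asm

/-!
`p(d, a) ≤ d^(9/5 + ε)` for almost all smooth moduli `d`, for every residue `a` outside a set of
`(log D)^O(1)` residues `a ≤ D^(9/5)`, `d ∈ (D, 2D]`.
-/

set_option autoImplicit false

namespace Pool.Agent.Results.MP_42948a_nt.SmoothModuliNineFifths

open Finset

open Classical in
/-- the squarefree moduli `d ∈ (D, 2D]` with all prime factors at most `D^η`, coprime to `a`, for
which every prime `p ≡ a (mod d)` is larger than `d^lam` (for `a < d`: `p(d, a) > d^lam`) -/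
noncomputable def badModuli (η lam : ℝ) (D a : ℕ) : Finset ℕ :=
  (Ioc D (2 * D)).filter (fun d : ℕ =>
    (Squarefree d ∧ ∀ p : ℕ, p.Prime → p ∣ d → (p : ℝ) ≤ (D : ℝ) ^ η) ∧ Nat.Coprime a d ∧
    ∀ p : ℕ, p.Prime → p ≡ a [MOD d] → (d : ℝ) ^ lam < p)

/-- **The least prime in progressions to smooth moduli: exponent `9/5`.** -/
theorem result : ∀ ε : ℝ, 0 < ε → ∃ η : ℝ, 0 < η ∧ ∀ U : ℕ, ∃ C : ℝ, 0 < C ∧ ∀ D : ℕ, 3 ≤ D →
    (((Icc 1 ⌊(D : ℝ) ^ (9 / 5 : ℝ)⌋₊).filter (fun a : ℕ => C * D / Real.log D ^ U <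
      ((badModuli η (9 / 5 + ε) D a).card : ℝ))).card : ℝ) ≤ C * Real.log D ^ (2 * U + 12) := by
  intro ε hε
  set lam : ℝ := 9 / 5 + ε with hlam
  set th : ℝ := (1 / lam + 5 / 9) / 2 with hthdef
  have hl : 9 / 5 < lam := by rw [hlam]; linarith
  have hlp : 0 < lam := by linarith
  have h1 : 1 / lam < 5 / 9 := by
    rw [div_lt_div_iff₀ hlp (by norm_num)]; linarith
  have hth : th < 5 / 9 := by rw [hthdef]; linarith
  have hth0 : 0 < th := by rw [hthdef]; positivity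
  have h2 : 1 < lam * th := by
    rw [hthdef]
    have : lam * (1 / lam) = 1 := by field_simp
    nlinarith
  obtain ⟨η, hη, hN⟩ := Pool.Agent.H442R2.FX.NS_thm th hth
  refine ⟨η, hη, ?_⟩
  intro U
  obtain ⟨C0, hC0, hG⟩ := hN ((U : ℝ) + 1) (by positivity)
  obtain ⟨C, hC, h⟩ := Pool.Agent.H442R2.LP.core lam th (9 / 5) hth0 h2 (by linarith) hl.le
    (fun x => Pool.Agent.H442R2.FX.smoo x η ⌊(x : ℝ) ^ th⌋₊)
    (fun D d => Squarefree d ∧ ∀ p : ℕ, p.Prime → p ∣ d → (p : ℝ) ≤ (D : ℝ) ^ η)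
    (by
      classical
      intro D a x hD ha ha2 hP hDx h2D
      unfold Pool.Agent.H442R2.FX.smoo
      refine Finset.mem_filter.2 ⟨Finset.mem_Icc.2 ⟨by omega, ?_⟩, hP.1, ?_⟩
      · refine Nat.le_floor (le_trans ?_ h2D)
        exact_mod_cast ha2
      · intro p hp hpa
        refine (hP.2 p hp hpa).trans ?_
        exact Real.rpow_le_rpow (by positivity) (by exact_mod_cast hDx) hη.le)
    U (2 * U + 12 : ℕ) C0 hC0 (by positivity)
    (by
      intro x hx
      have h3 := hG x hx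
      have h4 : (2 * ((U : ℝ) + 1) + 10) = ((2 * U + 12 : ℕ) : ℝ) := by push_cast; ring
      rw [h4] at h3
      exact h3)
  refine ⟨C, hC, ?_⟩
  intro D hD
  have h3 := h D hD
  rw [Real.rpow_natCast] at h3
  have h4 : ∀ a : ℕ, badModuli η lam D a = Pool.Agent.H442R2.LP.bad
      (fun D d => Squarefree d ∧ ∀ p : ℕ, p.Prime → p ∣ d → (p : ℝ) ≤ (D : ℝ) ^ η) lam D a := by
    intro a
    ext d
    rw [Pool.Agent.H442R2.LP.mem_bad]
    unfold badModuli
    simp only [Finset.mem_filter, Finset.mem_Ioc]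
  simp only [h4]
  exact h3

end Pool.Agent.Results.MP_42948a_nt.SmoothModuliNineFifths
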